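import Mathlib

/-!
# MP_c7af3c_ag, project T2C: irreducible polynomials in two variables and their zeros (helper39)
-/

set_option autoImplicit false

namespace Pool.Agent.T2C.NO3

open MvPolynomial

/-- A common zero: an irreducible polynomial divides. -/
theorem dvd_of_root {R Ω : Type} [CommRing R] [IsDomain R] [UniqueFactorizationMonoid R]
    [Field Ω] (φ : R →+* Ω) (hφ : Function.Injective φ)
    (ζ : Ω) {h f : Polynomial R} (hh : Irreducible h) (h0 : h.natDegree ≠ 0)
    (h1 : h.eval₂ φ ζ = 0) (h2 : f.eval₂ φ ζ = 0) : h ∣ f := by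
  by_contra hn
  have hp : h.IsPrimitive := hh.isPrimitive h0
  have hi : Irreducible (h.map (algebraMap R (FractionRing R))) :=
    hp.irreducible_iff_irreducible_map_fraction_map.1 hh
  have hc : IsCoprime (h.map (algebraMap R (FractionRing R)))
      (f.map (algebraMap R (FractionRing R))) := by
    refine (hi.coprime_iff_not_dvd).2 fun hd => hn ?_
    exact hp.dvd_of_fraction_map_dvd_fraction_map hd
  obtain ⟨ψ, hψ⟩ : ∃ ψ : FractionRing R →+* Ω, ∀ r, ψ (algebraMap _ _ r) = φ r :=
    ⟨IsFractionRing.lift hφ, fun r => IsFractionRing.lift_algebraMap hφ r⟩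
  obtain ⟨a, b, hab⟩ := hc
  have h3 : ∀ p : Polynomial R, (p.map (algebraMap R (FractionRing R))).eval₂ ψ ζ =
      p.eval₂ φ ζ := by
    intro p
    have h4 : ψ.comp (algebraMap R (FractionRing R)) = φ := RingHom.ext fun r => hψ r
    rw [Polynomial.eval₂_map, h4]
  have h4 := congrArg (fun p => p.eval₂ ψ ζ) hab
  simp only [Polynomial.eval₂_add, Polynomial.eval₂_mul, h3, h1, h2, mul_zero, add_zero,
    Polynomial.eval₂_one] at h4
  exact zero_ne_one h4

section

variable {K Ω : Type} [Field K] [Field Ω] [Algebra K Ω] {τ ζ : Ω}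

theorem aeval_fse (τ ζ : Ω) (f : MvPolynomial (Fin 2) K) :
    (finSuccEquiv K 1 f).eval₂ (aeval (R := K) ![ζ]).toRingHom τ = aeval ![τ, ζ] f := by
  have h : (Polynomial.eval₂RingHom (aeval (R := K) ![ζ]).toRingHom τ).comp
      (finSuccEquiv K 1).toAlgHom.toRingHom = (aeval (R := K) ![τ, ζ]).toRingHom := by
    apply MvPolynomial.ringHom_ext
    · intro r
      simp [finSuccEquiv_apply]
    · intro i
      refine Fin.cases ?_ (fun j => ?_) i
      · simp [finSuccEquiv_apply]
      · have hj : j = 0 := Subsingleton.elim _ _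
        subst hj
        have h1 : finSuccEquiv K 1 (X (Fin.succ 0)) = Polynomial.C (X 0) := finSuccEquiv_X_succ
        show Polynomial.eval₂ _ τ (finSuccEquiv K 1 (X (Fin.succ 0))) = _
        rw [h1]
        simp
  exact DFunLike.congr_fun h f

theorem inj_aeval (hζ : Transcendental K ζ) :
    Function.Injective (aeval (R := K) ![ζ]).toRingHom := by
  have h := (algebraicIndependent_iff_transcendental (R := K) (x := ζ)).2 hζ
  exact h

/-- A polynomial with this zero contains the first variable. -/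
theorem degreeOf_ne (hζ : Transcendental K ζ) {h : MvPolynomial (Fin 2) K} (h0 : h ≠ 0)
    (h1 : aeval ![τ, ζ] h = 0) : degreeOf 0 h ≠ 0 := by
  intro hd
  rw [← natDegree_finSuccEquiv] at hd
  have h2 := Polynomial.eq_C_of_natDegree_eq_zero hd
  rw [← aeval_fse, h2, Polynomial.eval₂_C] at h1
  have h3 := (injective_iff_map_eq_zero _).1 (inj_aeval hζ) _ h1
  rw [h3, map_zero] at h2
  exact h0 ((map_eq_zero_iff _ (finSuccEquiv K 1).injective).1 h2)

/-- The same for the second variable. -/
theorem degreeOf_ne' (hτ : Transcendental K τ) {h : MvPolynomial (Fin 2) K} (h0 : h ≠ 0)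
    (h1 : aeval ![τ, ζ] h = 0) : degreeOf 1 h ≠ 0 := by
  have hs : Function.Injective (Equiv.swap (0 : Fin 2) 1) := (Equiv.swap _ _).injective
  have h2 : rename (Equiv.swap (0 : Fin 2) 1) h ≠ 0 := fun he => h0
    ((map_eq_zero_iff _ (rename_injective _ hs)).1 he)
  have h3 : aeval ![ζ, τ] (rename (Equiv.swap (0 : Fin 2) 1) h) = 0 := by
    rw [aeval_rename]
    rw [← h1]
    congr 2
    funext i
    fin_cases i <;> simp
  have h4 := degreeOf_ne hτ h2 h3
  have h5 := degreeOf_rename_of_injective hs (p := h) 1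
  rw [Equiv.swap_apply_right] at h5
  rwa [h5] at h4

theorem dvd_of_zero (hζ : Transcendental K ζ) {h f : MvPolynomial (Fin 2) K}
    (hh : Irreducible h) (h1 : aeval ![τ, ζ] h = 0) (h2 : aeval ![τ, ζ] f = 0) : h ∣ f := by
  have h3 : finSuccEquiv K 1 h ∣ finSuccEquiv K 1 f := by
    refine dvd_of_root (aeval (R := K) ![ζ]).toRingHom (inj_aeval hζ) τ
      ((MulEquiv.irreducible_iff (finSuccEquiv K 1)).2 hh) ?_ ?_ ?_
    · rw [natDegree_finSuccEquiv]
      exact degreeOf_ne hζ hh.ne_zero h1
    · rw [aeval_fse]; exact h1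
    · rw [aeval_fse]; exact h2
  exact (map_dvd_iff (finSuccEquiv K 1)).1 h3

/-- There is an irreducible factor with the same zero. -/
theorem exists_factor {f : MvPolynomial (Fin 2) K} (h0 : f ≠ 0) (h1 : aeval ![τ, ζ] f = 0) :
    ∃ h : MvPolynomial (Fin 2) K, Irreducible h ∧ aeval ![τ, ζ] h = 0 := by
  classical
  obtain ⟨s, hs, u, hu⟩ := WfDvdMonoid.exists_factors f h0
  rw [← hu, map_mul, mul_eq_zero] at h1
  rcases h1 with h1 | h1
  · rw [map_multiset_prod, Multiset.prod_eq_zero_iff, Multiset.mem_map] at h1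
    obtain ⟨h, hh, h2⟩ := h1
    exact ⟨h, hs h hh, h2⟩
  · exact absurd h1 (u.isUnit.map (aeval (R := K) ![τ, ζ])).ne_zero

end

end Pool.Agent.T2C.NO3
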