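import Pool.Agent.Lib.MP_c7af3c_ag.T2C.NO3.Iface
import Pool.Agent.Lib.MP_c7af3c_ag.T2C.H39.Dvd

/-!
# MP_c7af3c_ag, project T2C, row N3US: a common factor, rank 4 (helper39)
-/

set_option autoImplicit false

namespace Pool.Agent.T2C.NO3

open MvPolynomial
open Pool.Agent.T2 (Rac)

theorem mem_bid_iff {L : Type} [Field L] {a b : ℕ} {p : MvPolynomial (Fin 2) L} :
    p ∈ bid L a b ↔ ∀ I, coeff I p ≠ 0 → I 0 ≤ a ∧ I 1 ≤ b := by
  unfold bid
  rw [mem_restrictSupport_iff]
  constructor
  · intro h I hI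
    exact h (Finset.mem_coe.2 (mem_support_iff.2 hI))
  · intro h I hI
    exact h I (mem_support_iff.1 (Finset.mem_coe.1 hI))

section

variable {Ω : Type} [Field Ω] {K : Subfield Ω}

/-- Polynomials with coefficients in `K`. -/
theorem exists_lift {f : MvPolynomial (Fin 2) Ω} (h : ∀ I, coeff I f ∈ K) :
    ∃ F : MvPolynomial (Fin 2) K, map (algebraMap K Ω) F = f := by
  have h1 : f ∈ Set.range (map (algebraMap K Ω) : MvPolynomial (Fin 2) K →+* _) := by
    rw [mem_range_map_iff_coeffs_subset]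
    intro z hz
    obtain ⟨I, -, rfl⟩ := mem_coeffs_iff.1 hz
    exact ⟨⟨_, h I⟩, rfl⟩
  exact h1

theorem eval_lift (v : Fin 2 → Ω) (F : MvPolynomial (Fin 2) K) :
    eval v (map (algebraMap K Ω) F) = aeval v F := by
  rw [eval_map, aeval_def]

theorem coeff_ne {F : MvPolynomial (Fin 2) K} (I : Fin 2 →₀ ℕ) :
    coeff I (map (algebraMap K Ω) F) ≠ 0 ↔ coeff I F ≠ 0 := by
  rw [coeff_map, map_ne_zero]

theorem transc (hK : Rac K) {z : Ω} (hz : z ∉ K) : Transcendental K z := by
  rintro ⟨p, hp, h0⟩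
  refine hz (hK z (p.map (algebraMap K Ω)) ?_ (fun i => ?_) ?_)
  · exact (Polynomial.map_ne_zero_iff (algebraMap K Ω).injective).2 hp
  · rw [Polynomial.coeff_map]
    exact (p.coeff i).2
  · rw [Polynomial.eval_map, ← Polynomial.aeval_def]
    exact h0

theorem deg_le_of_bid {F : MvPolynomial (Fin 2) K} {a b : ℕ}
    (h : map (algebraMap K Ω) F ∈ bid Ω a b) : degreeOf 0 F ≤ a ∧ degreeOf 1 F ≤ b := by
  rw [mem_bid_iff] at h
  rw [degreeOf_eq_sup, degreeOf_eq_sup]
  constructor
  · exact Finset.sup_le fun I hI => (h I ((coeff_ne I).2 (mem_support_iff.1 hI))).1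
  · exact Finset.sup_le fun I hI => (h I ((coeff_ne I).2 (mem_support_iff.1 hI))).2

theorem bid_of_deg {F : MvPolynomial (Fin 2) K} {a b : ℕ} (h : degreeOf 0 F ≤ a)
    (h' : degreeOf 1 F ≤ b) : map (algebraMap K Ω) F ∈ bid Ω a b := by
  rw [mem_bid_iff]
  intro I hI
  have h1 : I ∈ F.support := mem_support_iff.2 ((coeff_ne I).1 hI)
  exact ⟨(monomial_le_degreeOf 0 h1).trans h, (monomial_le_degreeOf 1 h1).trans h'⟩

/-- A bilinear relation. -/
theorem bilin {F : MvPolynomial (Fin 2) K} (h0 : degreeOf 0 F ≤ 1) (h1 : degreeOf 1 F ≤ 1)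
    {τ ζ : Ω} (hz : aeval ![τ, ζ] F = 0)
    (hrel : ∀ a : Fin 4 → Ω, (∀ i, a i ∈ K) →
      a 0 + a 1 * ζ + a 2 * τ + a 3 * (τ * ζ) = 0 → a = 0) : F = 0 := by
  classical
  let E : Fin 2 × Fin 2 → (Fin 2 →₀ ℕ) := fun ij =>
    Finsupp.single 0 (ij.1 : ℕ) + Finsupp.single 1 (ij.2 : ℕ)
  have E0 : ∀ ij, E ij 0 = ij.1 := fun ij => by simp [E]
  have E1 : ∀ ij, E ij 1 = ij.2 := fun ij => by simp [E]
  have hE : Function.Injective E := by
    intro p q hpq
    have h2 := DFunLike.congr_fun hpq 0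
    have h3 := DFunLike.congr_fun hpq 1
    rw [E0, E0] at h2
    rw [E1, E1] at h3
    exact Prod.ext (Fin.ext h2) (Fin.ext h3)
  have hS : F.support ⊆ Finset.univ.image E := by
    intro I hI
    have h2 := (monomial_le_degreeOf 0 hI).trans h0
    have h3 := (monomial_le_degreeOf 1 hI).trans h1
    refine Finset.mem_image.2 ⟨(⟨I 0, by omega⟩, ⟨I 1, by omega⟩), Finset.mem_univ _, ?_⟩
    ext i
    fin_cases i
    · exact E0 _
    · exact E1 _
  have h2 : aeval ![τ, ζ] F = ∑ ij : Fin 2 × Fin 2,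
      ((coeff (E ij) F : K) : Ω) * (τ ^ (ij.1 : ℕ) * ζ ^ (ij.2 : ℕ)) := by
    rw [aeval_def, eval₂_eq', Finset.sum_subset hS, Finset.sum_image (fun p _ q _ h => hE h)]
    · refine Finset.sum_congr rfl fun ij _ => ?_
      rw [Fin.prod_univ_two, E0, E1]
      rfl
    · intro I _ hI
      rw [notMem_support_iff.1 hI, map_zero, zero_mul]
  rw [h2, Fintype.sum_prod_type, Fin.sum_univ_two, Fin.sum_univ_two, Fin.sum_univ_two] at hz
  simp only [Fin.val_zero, Fin.val_one, pow_zero, pow_one, mul_one, one_mul] at hz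
  have h3 := hrel ![(coeff (E (0, 0)) F : K), (coeff (E (0, 1)) F : K),
    (coeff (E (1, 0)) F : K), (coeff (E (1, 1)) F : K)] (by
      intro i
      fin_cases i
      · exact (coeff (E (0, 0)) F).2
      · exact (coeff (E (0, 1)) F).2
      · exact (coeff (E (1, 0)) F).2
      · exact (coeff (E (1, 1)) F).2) (by
      rw [← hz]
      simp
      ring)
  have h4 : ∀ ij, coeff (E ij) F = 0 := by
    rintro ⟨i, j⟩
    have e0 := congrFun h3 0
    have e1 := congrFun h3 1
    have e2 := congrFun h3 2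
    have e3 := congrFun h3 3
    fin_cases i <;> fin_cases j
    · exact Subtype.ext e0
    · exact Subtype.ext e1
    · exact Subtype.ext e2
    · exact Subtype.ext e3
  ext I
  by_cases hI : I ∈ F.support
  · obtain ⟨ij, -, rfl⟩ := Finset.mem_image.1 (hS hI)
    rw [h4 ij, coeff_zero]
  · rw [notMem_support_iff.1 hI, coeff_zero]

end

/-- Row N3US. -/
theorem n3us : N3USStatement := by
  intro Ω _ _ K hK τ ζ hrel c d f hf hfK hf0 ⟨m1, hm1⟩
  have hζ : Transcendental K ζ := transc hK fun hz => by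
    have := congrFun (hrel ![-ζ, 1, 0, 0] (by
      intro i
      fin_cases i
      · exact K.neg_mem hz
      · exact K.one_mem
      · exact K.zero_mem
      · exact K.zero_mem) (by simp)) 1
    simp at this
  have hτ : Transcendental K τ := transc hK fun hz => by
    have := congrFun (hrel ![-τ, 0, 1, 0] (by
      intro i
      fin_cases i
      · exact K.neg_mem hz
      · exact K.zero_mem
      · exact K.one_mem
      · exact K.zero_mem) (by simp)) 2
    simp at this
  choose F hF using fun m => exists_lift (hfK m)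
  have hF0 : ∀ m, aeval ![τ, ζ] (F m) = 0 := fun m => by
    rw [← eval_lift, hF]; exact hf0 m
  have hne : F m1 ≠ 0 := by
    rintro he
    apply hm1
    rw [← hF, he, map_zero]
  obtain ⟨h, hh, hz⟩ := exists_factor hne (hF0 m1)
  have hdv : ∀ m, h ∣ F m := fun m => dvd_of_zero hζ hh hz (hF0 m)
  choose g hg using hdv
  have ha := degreeOf_ne hζ hh.ne_zero hz
  have hb := degreeOf_ne' hτ hh.ne_zero hz
  have hdeg : ∀ m, g m ≠ 0 → degreeOf 0 h + degreeOf 0 (g m) ≤ d m ∧
      degreeOf 1 h + degreeOf 1 (g m) ≤ d m := by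
    intro m hm
    have h1 := hf m
    rw [← hF] at h1
    have h2 := deg_le_of_bid h1
    rw [hg m, degreeOf_mul_eq hh.ne_zero hm, degreeOf_mul_eq hh.ne_zero hm] at h2
    exact h2
  refine ⟨degreeOf 0 h, degreeOf 1 h, map (algebraMap K Ω) h, fun m => map (algebraMap K Ω) (g m),
    by omega, by omega, ?_, bid_of_deg le_rfl le_rfl, ?_, fun m => ?_, fun m => ?_, fun m hm => ?_⟩
  · by_contra hc
    exact hh.ne_zero (bilin (by omega) (by omega) hz hrel)
  · intro he
    exact hh.ne_zero ((map_eq_zero_iff _ (map_injective _ (algebraMap K Ω).injective)).1 he)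
  · rw [← hF, hg m, map_mul]
  · by_cases hm : g m = 0
    · show map (algebraMap K Ω) (g m) ∈ _
      rw [hm, map_zero]
      exact Submodule.zero_mem _
    · have := hdeg m hm
      exact bid_of_deg (by omega) (by omega)
  · have h1 : g m = 0 := by
      by_contra hc
      have := hdeg m hc
      exact hm ⟨by omega, by omega⟩
    show map (algebraMap K Ω) (g m) = 0
    rw [h1, map_zero]

end Pool.Agent.T2C.NO3
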